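import Pool.Agent.H26.QQ.Targets

/-!
# MP_7ecdd4_nt, board qq_modules, row SPL: bad primes
-/

set_option autoImplicit false

open Finset

namespace Pool.Agent.H92.QQ

open Pool.Agent.H26.QQ

theorem pf_SPL : T_SPL := by
  classical
  intro D N v s K hD hN hK
  obtain ⟨A, hA⟩ : ∃ A, A = D.filter (fun l : ℕ => ¬ (l : ℤ) ^ (v + 1) ∣ N) := ⟨_, rfl⟩
  obtain ⟨D2, hD2⟩ : ∃ D2, D2 = D.filter (fun l : ℕ => (l : ℤ) ^ (v + 1) ∣ N) := ⟨_, rfl⟩
  obtain ⟨D', hD'⟩ : ∃ D', D' = A.filter (fun l : ℕ => s ≤ l) := ⟨_, rfl⟩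
  obtain ⟨D1, hD1⟩ : ∃ D1, D1 = A.filter (fun l : ℕ => ¬ s ≤ l) := ⟨_, rfl⟩
  have hAD : A ⊆ D := hA ▸ filter_subset _ _
  have hD'A : D' ⊆ A := hD' ▸ filter_subset _ _
  refine ⟨D', hD'A.trans hAD, fun l hl => ?_, ?_⟩
  · have h1 := hD'A hl
    rw [hD', mem_filter] at hl
    rw [hA, mem_filter] at h1
    exact ⟨hl.2, h1.2⟩
  have e1 : ∏ l ∈ D, (l : ℝ) = (∏ l ∈ D2, (l : ℝ)) * ∏ l ∈ A, (l : ℝ) := by
    rw [hD2, hA, prod_filter_mul_prod_filter_not]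
  have e2 : ∏ l ∈ A, (l : ℝ) = (∏ l ∈ D', (l : ℝ)) * ∏ l ∈ D1, (l : ℝ) := by
    rw [hD', hD1, prod_filter_mul_prod_filter_not]
  have n1 : ∀ E : Finset ℕ, 0 ≤ ∏ l ∈ E, (l : ℝ) := fun E =>
    prod_nonneg fun l _ => Nat.cast_nonneg l
  -- the small primes
  have b1 : ∏ l ∈ D1, (l : ℝ) ≤ (s : ℝ) ^ s := by
    have hsub : D1 ⊆ range s := by
      intro l hl
      rw [hD1, mem_filter] at hl
      exact mem_range.2 (not_le.1 hl.2)
    have h1 : ∏ l ∈ D1, (l : ℝ) ≤ ∏ _l ∈ D1, (s : ℝ) := by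
      refine prod_le_prod (fun l _ => Nat.cast_nonneg l) fun l hl => ?_
      exact_mod_cast (mem_range.1 (hsub hl)).le
    rw [prod_const] at h1
    refine h1.trans ?_
    have hc : D1.card ≤ s := by
      have := card_le_card hsub
      rwa [card_range] at this
    rcases Nat.eq_zero_or_pos s with h0 | h0
    · have h2 : D1.card = 0 := by omega
      rw [h2, h0]
    · exact pow_le_pow_right₀ (by exact_mod_cast h0) hc
  -- the primes with a high power dividing `N`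
  have b2 : ∏ l ∈ D2, (l : ℝ) ≤ K ^ (1 / ((v : ℝ) + 1)) := by
    have h1 : ∏ l ∈ D2, (l : ℤ) ^ (v + 1) ∣ N := by
      refine Finset.prod_dvd_of_coprime ?_ ?_
      · intro a ha b hb hab
        have ha' : a ∈ D := (mem_filter.1 (hD2 ▸ mem_coe.1 ha)).1
        have hb' : b ∈ D := (mem_filter.1 (hD2 ▸ mem_coe.1 hb)).1
        exact IsCoprime.pow (Nat.isCoprime_iff_coprime.2
          ((Nat.coprime_primes (hD a ha') (hD b hb')).2 hab))
      · intro l hl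
        rw [hD2, mem_filter] at hl
        exact hl.2
    have h2 := Int.le_of_dvd (abs_pos.2 hN) ((dvd_abs _ _).2 h1)
    have h3 : (∏ l ∈ D2, (l : ℝ)) ^ (v + 1) ≤ K := by
      have h4 : (((∏ l ∈ D2, (l : ℤ) ^ (v + 1) : ℤ)) : ℝ) ≤ ((|N| : ℤ) : ℝ) := by
        exact_mod_cast h2
      rw [Int.cast_abs] at h4
      have h5 : (((∏ l ∈ D2, (l : ℤ) ^ (v + 1) : ℤ)) : ℝ) = (∏ l ∈ D2, (l : ℝ)) ^ (v + 1) := by
        rw [← Finset.prod_pow]
        push_cast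
        rfl
      rw [h5] at h4
      exact h4.trans hK
    have h6 := Real.pow_rpow_inv_natCast (n1 D2) (Nat.succ_ne_zero v)
    rw [← h6]
    have e3 : (((v.succ : ℕ) : ℝ))⁻¹ = 1 / ((v : ℝ) + 1) := by
      push_cast
      rw [one_div]
    rw [e3]
    exact Real.rpow_le_rpow (pow_nonneg (n1 D2) _) h3 (by positivity)
  rw [e1, e2]
  have hKn : 0 ≤ K ^ (1 / ((v : ℝ) + 1)) := (n1 D2).trans b2
  calc (∏ l ∈ D2, (l : ℝ)) * ((∏ l ∈ D', (l : ℝ)) * ∏ l ∈ D1, (l : ℝ)) ≤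
        K ^ (1 / ((v : ℝ) + 1)) * ((∏ l ∈ D', (l : ℝ)) * (s : ℝ) ^ s) :=
        mul_le_mul b2 (mul_le_mul_of_nonneg_left b1 (n1 D')) (mul_nonneg (n1 D') (n1 D1)) hKn
    _ = _ := by ring

end Pool.Agent.H92.QQ
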